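import Mathlib
import Pool.Agent.SD95.Out

set_option autoImplicit false

namespace Pool.Agent.Results.MP_c6effb_co.AverageAtMostThree

open Finset Classical Pool.Agent.Sid86 Pool.Agent.SD95

/-- Sidorenko's inequality `R(3,G) ≤ k + m` for every graph `G` of maximum average degree
at most 3 (every set `S` of vertices spans at most `3|S|/2` edges). -/
theorem result (V : Type) [Fintype V] (G : SimpleGraph V)
    (hG : ∀ S : Finset V, 2 * (G.induce (S : Set V)).edgeSet.ncard ≤ 3 * S.card) :
    ∀ H : SimpleGraph (Fin (Fintype.card V + G.edgeSet.ncard)),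
      ¬ H.CliqueFree 3 ∨ ∃ f : G →g Hᶜ, Function.Injective f := by
  have hgood := good_of_mad3 G _ univ rfl (fun S _ => by
    rw [E2_eq]
    exact hG S)
  refine out G _ (by omega) ?_
  intro W _ _ H hH hW
  exact hgood W H hH (by rw [E2_univ, card_univ]; omega)

end Pool.Agent.Results.MP_c6effb_co.AverageAtMostThree
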