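import Mathlib
import Pool.Agent.T6J.AllMain

set_option autoImplicit false

namespace Pool.Agent.Results.MP_c6effb_co.LargeGraphs

/-- Sidorenko's inequality `R(3,G) ≤ k + m` for all graphs `G` with `k ≥ k₀` vertices and `m` edges,
where `k₀` is an absolute constant. -/
theorem result :
    ∃ k₀ : ℕ, ∀ (V : Type) [Fintype V] (G : SimpleGraph V), k₀ ≤ Fintype.card V →
      ∀ H : SimpleGraph (Fin (Fintype.card V + G.edgeSet.ncard)),
        ¬ H.CliqueFree 3 ∨ ∃ f : G →g Hᶜ, Function.Injective f :=
  Pool.Agent.T6J.all_large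

end Pool.Agent.Results.MP_c6effb_co.LargeGraphs
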