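import Mathlib
import Pool.Agent.Sid84.Rate

set_option autoImplicit false

namespace Pool.Agent.Results.MP_c6effb_co.LittleOfEdges

/-- `R(3,G) ≤ K (k + m / log log (16 + m / k))` for all graphs `G` with `k` vertices and `m` edges, with an
absolute constant `K`. In particular `R(3,G) ≤ n` for all `n ≥ max (ε m) (C k)`, where `C` depends
only on `ε`. -/
theorem result :
    (∃ K : ℝ, 0 < K ∧ ∀ (V : Type) [Fintype V] (G : SimpleGraph V) (n : ℕ),
      K * ((Fintype.card V : ℝ) + (G.edgeSet.ncard : ℝ) /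
        Real.log (Real.log (16 + (G.edgeSet.ncard : ℝ) / (Fintype.card V : ℝ)))) ≤ n →
      ∀ H : SimpleGraph (Fin n), ¬ H.CliqueFree 3 ∨ ∃ f : G →g Hᶜ, Function.Injective f) ∧
    ∀ ε : ℝ, 0 < ε → ∃ C : ℝ, ∀ (V : Type) [Fintype V] (G : SimpleGraph V) (n : ℕ),
      ε * (G.edgeSet.ncard : ℝ) ≤ n → C * (Fintype.card V : ℝ) ≤ n →
      ∀ H : SimpleGraph (Fin n), ¬ H.CliqueFree 3 ∨ ∃ f : G →g Hᶜ, Function.Injective f := by
  refine ⟨?_, ?_⟩
  · obtain ⟨K, hK0, hK⟩ := Pool.Agent.Sid84.rate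
    refine ⟨K, hK0, ?_⟩
    intro V _ G n hn H
    by_cases hH : H.CliqueFree 3
    · right
      obtain ⟨f, hf, hadj⟩ := hK (Fin n) V H G hH (by rwa [Fintype.card_fin])
      refine ⟨⟨f, ?_⟩, hf⟩
      intro a b hab
      rw [SimpleGraph.compl_adj]
      exact ⟨fun h => hab.ne (hf h), hadj a b hab⟩
    · exact Or.inl hH
  · intro ε hε
    obtain ⟨C, _, hC⟩ := Pool.Agent.Sid84.ramsey_eps ε hε
    refine ⟨C, ?_⟩
    intro V _ G n hm hk H
    by_cases hH : H.CliqueFree 3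
    · right
      obtain ⟨f, hf, hadj⟩ := hC (Fin n) V H G hH (by rwa [Fintype.card_fin])
        (by rwa [Fintype.card_fin])
      refine ⟨⟨f, ?_⟩, hf⟩
      intro a b hab
      rw [SimpleGraph.compl_adj]
      exact ⟨fun h => hab.ne (hf h), hadj a b hab⟩
    · exact Or.inl hH

end Pool.Agent.Results.MP_c6effb_co.LittleOfEdges
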