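import Mathlib
import Pool.Agent.SD95.Out

set_option autoImplicit false

namespace Pool.Agent.Results.MP_c6effb_co.SevenFifths

open Finset Classical Pool.Agent.Sid86 Pool.Agent.SD95

/-- General form: `R(3,G) ≤ n` if `n ≥ k + m` and `n ≥ 6 (e(U) - |U|)` for every set `U` of
vertices. In particular Sidorenko's inequality `R(3,G) ≤ k + m` holds for every connected graph
with `k` vertices and `m ≤ 7k/5` edges. -/
theorem result :
    (∀ (V : Type) [Fintype V] (G : SimpleGraph V) (n : ℕ),
      Fintype.card V + G.edgeSet.ncard ≤ n →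
      (∀ U : Finset V, 6 * (G.induce (U : Set V)).edgeSet.ncard ≤ 6 * U.card + n) →
      ∀ H : SimpleGraph (Fin n), ¬ H.CliqueFree 3 ∨ ∃ f : G →g Hᶜ, Function.Injective f) ∧
    (∀ (V : Type) [Fintype V] (G : SimpleGraph V), G.Connected →
      5 * G.edgeSet.ncard ≤ 7 * Fintype.card V →
      ∀ H : SimpleGraph (Fin (Fintype.card V + G.edgeSet.ncard)),
        ¬ H.CliqueFree 3 ∨ ∃ f : G →g Hᶜ, Function.Injective f) := by
  have key : ∀ (V : Type) [Fintype V] (G : SimpleGraph V) (n : ℕ),
      Fintype.card V + G.edgeSet.ncard ≤ n →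
      (∀ U : Finset V, 6 * (G.induce (U : Set V)).edgeSet.ncard ≤ 6 * U.card + n) →
      ∀ H : SimpleGraph (Fin n), ¬ H.CliqueFree 3 ∨ ∃ f : G →g Hᶜ, Function.Injective f := by
    intro V _ G n hn hU
    refine out G n (by omega) ?_
    exact arr_of_bnd G _ univ rfl n ⟨by rw [E2_univ, card_univ]; omega, fun U _ => by
      rw [E2_eq]
      have := hU U
      omega⟩
  refine ⟨key, fun V _ G hG hm => key V G _ le_rfl (fun U => ?_)⟩
  rcases U.eq_empty_or_nonempty with rfl | hne
  · have h0 := E2_eq G (∅ : Finset V)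
    have h1 : E2 G (∅ : Finset V) = 0 := by simp [E2]
    omega
  · have := conn_edges hG U hne
    omega

end Pool.Agent.Results.MP_c6effb_co.SevenFifths
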